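import Pool.Agent.Helper64.LN.GoalsA

set_option autoImplicit false

/-!
# LN, H5: enumeration of a periodic discrete set
-/

open Topology Filter Set Metric

namespace Pool.Agent.Helper17.LN

/-- The index of `i` in a period. -/
lemma idx_lt {N : ℕ} (hN : 1 ≤ N) (i : ℤ) : (i % (N : ℤ)).toNat < N := by
  have h1 := Int.emod_nonneg i (by omega : (N : ℤ) ≠ 0)
  have h2 := Int.emod_lt_of_pos i (by omega : (0 : ℤ) < N)
  omega

/-- **GOAL H5.** -/
theorem goalH5 : Pool.Agent.Helper64.LN.GoalH5 := by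
  intro D hne hper hfin
  have hint : ∀ (n : ℤ) x, x ∈ D ↔ x + n ∈ D := by
    intro n
    induction n with
    | zero => intro x; simp
    | succ n ih =>
      intro x
      rw [ih, hper]
      push_cast
      rw [add_assoc]
    | pred n ih =>
      intro x
      rw [ih, hper (x + ((-(n : ℤ) - 1 : ℤ) : ℝ))]
      push_cast
      rw [show x + (-(n : ℝ) - 1) + 1 = x + -(n : ℝ) by ring]
  have hfin' : (D ∩ Ico 0 1).Finite := hfin.subset (inter_subset_inter_right _ Ico_subset_Icc_self)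
  set S := hfin'.toFinset with hS
  have hSm : ∀ x, x ∈ S ↔ x ∈ D ∧ 0 ≤ x ∧ x < 1 := by
    intro x
    rw [hS, Set.Finite.mem_toFinset]
    simp
  have hSne : S.Nonempty := by
    obtain ⟨x, hx⟩ := hne
    refine ⟨Int.fract x, (hSm _).2 ⟨?_, Int.fract_nonneg x, Int.fract_lt_one x⟩⟩
    rw [hint ⌊x⌋, Int.fract_add_floor]
    exact hx
  have hN : 1 ≤ S.card := hSne.card_pos
  let e0 := S.orderEmbOfFin rfl
  have he0 : ∀ k, e0 k ∈ S := fun k => Finset.orderEmbOfFin_mem S rfl k
  have hsurj : ∀ x ∈ S, ∃ k, e0 k = x := by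
    intro x hx
    have := Finset.range_orderEmbOfFin S rfl
    have hx' : x ∈ Set.range (S.orderEmbOfFin rfl) := by
      rw [this]; exact hx
    exact hx'
  let e : ℤ → ℝ := fun i => e0 ⟨(i % (S.card : ℤ)).toNat, idx_lt hN i⟩ + ((i / (S.card : ℤ) : ℤ) : ℝ)
  refine ⟨S.card, e, hN, ?_, ?_, ?_⟩
  · refine strictMono_int_of_lt_succ fun i => ?_
    have hpos : (0 : ℤ) < S.card := by omega
    have h1 := Int.emod_nonneg i hpos.ne'
    have h2 := Int.emod_lt_of_pos i hpos
    have h3 := Int.emod_add_mul_ediv i (S.card : ℤ)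
    by_cases hlt : i % (S.card : ℤ) + 1 < S.card
    · have hq : (i + 1) / (S.card : ℤ) = i / (S.card : ℤ) ∧
          (i + 1) % (S.card : ℤ) = i % (S.card : ℤ) + 1 := by
        rw [Int.ediv_emod_unique hpos]
        refine ⟨by linarith, by omega, hlt⟩
      change e0 _ + _ < e0 _ + _
      rw [hq.1]
      have : e0 ⟨(i % (S.card : ℤ)).toNat, idx_lt hN i⟩ <
          e0 ⟨((i + 1) % (S.card : ℤ)).toNat, idx_lt hN (i + 1)⟩ := by
        rw [e0.lt_iff_lt]
        rw [Fin.lt_def]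
        simp only
        rw [hq.2]
        omega
      linarith
    · have hq : (i + 1) / (S.card : ℤ) = i / (S.card : ℤ) + 1 ∧
          (i + 1) % (S.card : ℤ) = 0 := by
        rw [Int.ediv_emod_unique hpos]
        refine ⟨?_, le_rfl, hpos⟩
        have : i % (S.card : ℤ) = S.card - 1 := by omega
        rw [this] at h3
        linarith
      change e0 _ + _ < e0 _ + _
      rw [hq.1]
      have ha := ((hSm _).1 (he0 ⟨(i % (S.card : ℤ)).toNat, idx_lt hN i⟩)).2.2
      have hb := ((hSm _).1 (he0 ⟨((i + 1) % (S.card : ℤ)).toNat, idx_lt hN (i + 1)⟩)).2.1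
      push_cast
      linarith
  · ext x
    constructor
    · rintro ⟨i, rfl⟩
      have := ((hSm _).1 (he0 ⟨(i % (S.card : ℤ)).toNat, idx_lt hN i⟩)).1
      exact (hint _ _).1 this
    · intro hx
      obtain ⟨k, hk⟩ := hsurj (Int.fract x) ((hSm _).2 ⟨by
        rw [hint ⌊x⌋, Int.fract_add_floor]; exact hx, Int.fract_nonneg x, Int.fract_lt_one x⟩)
      have hpos : (0 : ℤ) < S.card := by omega
      have hkl : ((k : ℕ) : ℤ) < S.card := by exact_mod_cast k.2
      have hq : ((k : ℕ) + (S.card : ℤ) * ⌊x⌋) / (S.card : ℤ) = ⌊x⌋ ∧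
          ((k : ℕ) + (S.card : ℤ) * ⌊x⌋) % (S.card : ℤ) = (k : ℕ) := by
        rw [Int.ediv_emod_unique hpos]
        exact ⟨rfl, by omega, hkl⟩
      refine ⟨(k : ℕ) + (S.card : ℤ) * ⌊x⌋, ?_⟩
      change e0 _ + _ = x
      rw [hq.1]
      have : (⟨(((k : ℕ) + (S.card : ℤ) * ⌊x⌋) % (S.card : ℤ)).toNat,
          idx_lt hN ((k : ℕ) + (S.card : ℤ) * ⌊x⌋)⟩ : Fin S.card) = k := by
        apply Fin.ext
        simp only
        rw [hq.2]
        simp
      rw [this, hk, Int.fract_add_floor]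
  · intro i
    have hpos : (S.card : ℤ) ≠ 0 := by omega
    change e0 _ + _ = e0 _ + _ + 1
    have h1 : (i + (S.card : ℤ)) / (S.card : ℤ) = i / (S.card : ℤ) + 1 := by
      rw [Int.add_ediv_of_dvd_right (dvd_refl _), Int.ediv_self hpos]
    have h2 : (i + (S.card : ℤ)) % (S.card : ℤ) = i % (S.card : ℤ) := by simp
    have h3 : (⟨((i + (S.card : ℤ)) % (S.card : ℤ)).toNat, idx_lt hN _⟩ : Fin S.card) =
        ⟨(i % (S.card : ℤ)).toNat, idx_lt hN i⟩ := by
      apply Fin.ext
      simp only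
      rw [h2]
    rw [h1, h3]
    push_cast
    ring

end Pool.Agent.Helper17.LN
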