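import Pool.Agent.Helper64.LN.GoalsB

set_option autoImplicit false

/-!
# LN, L1: lifts of homeomorphisms
-/

open Topology Filter Set Metric UpperHalfPlane
open scoped MatrixGroups
open Pool.Agent.Helper64.LN

namespace Pool.Agent.Helper17.LN

theorem uni_cont {X : Type*} [TopologicalSpace X] {B : Set X} {u : ℍ → X} (h : Uni B u) :
    Continuous u := by
  have h1 : ContinuousOn u (u ⁻¹' Bᶜ) := h.cov.continuousOn
  have h2 : u ⁻¹' Bᶜ = univ := by
    rw [← h.range]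
    ext x
    simp
  rw [h2] at h1
  exact continuousOn_univ.mp h1

theorem uni_mem {X : Type*} [TopologicalSpace X] {B : Set X} {u : ℍ → X} (h : Uni B u) (v : ℍ) :
    u v ∈ Bᶜ := by
  rw [← h.range]
  exact ⟨v, rfl⟩

theorem fixP_compl {X : Type*} [TopologicalSpace X] {p : X} {P : Set X} {f : X ≃ₜ X}
    (hf : f ∈ FixP p P) {x : X} (hx : x ∈ (insert p P)ᶜ) : f x ∈ (insert p P)ᶜ := by
  intro h
  apply hx
  rcases h with h | h
  · left
    have h1 : f p = p := hf.1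
    exact f.injective (h.trans h1.symm)
  · right
    exact (hf.2 x).1 h

theorem lift_ex {X : Type*} [TopologicalSpace X] {p : X} {P : Set X} {u : ℍ → X}
    (hu : Uni (insert p P) u) {f : X ≃ₜ X} (hf : f ∈ FixP p P) {z w : ℍ} (h : u w = f (u z)) :
    ∃ F : C(ℍ, ℍ), F z = w ∧ ∀ v, u (F v) = f (u v) := by
  obtain ⟨F, ⟨hF1, hF2⟩, -⟩ := hu.cov.existsUnique_continuousMap_lifts
    (⟨fun v => f (u v), f.continuous.comp (uni_cont hu)⟩ : C(ℍ, X)) (a₀ := z) (e₀ := w) h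
    (fun v => fixP_compl hf (uni_mem hu v))
  exact ⟨F, hF1, fun v => congrFun hF2 v⟩

theorem lift_id {X : Type*} [TopologicalSpace X] {B : Set X} {u : ℍ → X}
    (hu : Uni B u) (G : C(ℍ, ℍ)) (hG : ∀ v, u (G v) = u v) {z : ℍ} (hz : G z = z) (v : ℍ) :
    G v = v := by
  obtain ⟨F, -, hF⟩ := hu.cov.existsUnique_continuousMap_lifts
    (⟨u, uni_cont hu⟩ : C(ℍ, X)) (a₀ := z) (e₀ := z) rfl (fun v => uni_mem hu v)
  have e1 := hF G ⟨hz, funext hG⟩
  have e2 := hF (ContinuousMap.id ℍ) ⟨rfl, rfl⟩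
  have e3 := e1.trans e2.symm
  exact congrArg (fun g : C(ℍ, ℍ) => g v) e3

/-- **GOAL L1.** -/
theorem goalL1.{v} : GoalL1.{v} := by
  intro X _ _ p P u hu f hf z w hzw
  obtain ⟨F, hF1, hF2⟩ := lift_ex hu hf hzw
  have hf' : f⁻¹ ∈ FixP p P := (FixP p P).inv_mem hf
  have hinv : ∀ x, f⁻¹ (f x) = x := fun x => f.symm_apply_apply x
  have hinv' : ∀ x, f (f⁻¹ x) = x := fun x => f.apply_symm_apply x
  obtain ⟨G, hG1, hG2⟩ := lift_ex hu hf' (z := w) (w := z) (by rw [hzw, hinv])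
  have h1 : ∀ v, G (F v) = v := lift_id hu (G.comp F) (fun v => by
    change u (G (F v)) = u v
    rw [hG2, hF2, hinv]) (z := z) (by change G (F z) = z; rw [hF1, hG1])
  have h2 : ∀ v, F (G v) = v := lift_id hu (F.comp G) (fun v => by
    change u (F (G v)) = u v
    rw [hF2, hG2, hinv']) (z := w) (by change F (G w) = w; rw [hG1, hF1])
  refine ⟨⟨⟨F, G, h1, h2⟩, F.continuous, G.continuous⟩, fun v => hF2 v, hF1⟩

end Pool.Agent.Helper17.LN
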