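import Pool.Agent.Helper64.LN.GoalsA

set_option autoImplicit false

/-!
# LN, R2
-/

open Topology Filter Set Metric
open Pool.Agent.Helper64.LN

namespace Pool.Agent.Helper17.LN

section
variable {H : Type} [Group H] {D : Subgroup H} {Sp : H → H → H → Prop} {l r : H → H → ℝ}
  {sd : H → H → Prop}

lemma conj_mem {g a : H} (hg : g ∈ D) (ha : a ∈ D) : g * a * g⁻¹ ∈ D :=
  D.mul_mem (D.mul_mem hg ha) (D.inv_mem hg)

lemma cr_conj (G : GF D Sp) {g a b : H} (hg : g ∈ D) (h : Cr Sp a b) :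
    Cr Sp (g * a * g⁻¹) (g * b * g⁻¹) := by
  have := G.conj g hg a b b⁻¹ h
  unfold Cr
  convert this using 1
  group

lemma nc_conj {g a b : H} (h : Nc a b) : Nc (g * a * g⁻¹) (g * b * g⁻¹) := by
  intro h'
  apply h
  have h2 : g * (a * b) * g⁻¹ = g * (b * a) * g⁻¹ := by
    calc g * (a * b) * g⁻¹ = g * a * g⁻¹ * (g * b * g⁻¹) := by group
      _ = g * b * g⁻¹ * (g * a * g⁻¹) := h'
      _ = g * (b * a) * g⁻¹ := by group
  have := mul_right_cancel h2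
  exact mul_left_cancel this

lemma nc_symm {a b : H} (h : Nc a b) : Nc b a := fun h' => h h'.symm

lemma hp_conj (G : GF D Sp) {g a : H} (hg : g ∈ D) (h : Hp D Sp a) : Hp D Sp (g * a * g⁻¹) := by
  obtain ⟨e, he, hc⟩ := h
  exact ⟨g * e * g⁻¹, conj_mem hg he, cr_conj G hg hc⟩

lemma hp_ne_one (G : GF D Sp) {a : H} (ha : a ∈ D) (h : Hp D Sp a) : a ≠ 1 := by
  rintro rfl
  obtain ⟨e, he, hc⟩ := h
  exact G.comm 1 ha e he hc (by simp)

lemma nc_par (G : Geo D Sp l r sd) {γ π : H} (S : SimC D Sp γ π) {g a : H} (hg : g ∈ D)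
    (ha : a ∈ D) (h : Hp D Sp a) : Nc a (g * π * g⁻¹) := by
  intro hc
  obtain ⟨e, he, hcr⟩ := h
  have h1 : Cr Sp (g * π * g⁻¹) e := by
    refine G.crcom a ha e he _ (conj_mem hg S.memπ) hcr hc ?_
    intro h1
    apply S.one
    have := mul_inv_eq_one.1 h1
    exact mul_eq_left.1 this
  have h2 := cr_conj G.toGF (D.inv_mem hg) h1
  have h3 : g⁻¹ * (g * π * g⁻¹) * g⁻¹⁻¹ = π := by group
  rw [h3] at h2
  exact (S.par _ (conj_mem (D.inv_mem hg) he)).1 h2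

/-- **GOAL R2.** -/
theorem goalR2 : GoalR2 := by
  intro H _ D Sp l r sd γ π γ' G S hγ' hHp hDisj hBt hs
  have h1 : γ' ≠ 1 := hp_ne_one G.toGF hγ' hHp
  have hside := G.side
  have hpar : ∀ a ∈ D, Hp D Sp a → Nc a π := fun a ha h => by
    have := nc_par G S D.one_mem ha h
    simpa using this
  have hx : γ' * π * γ'⁻¹ ∈ D := conj_mem hγ' S.memπ
  constructor
  · refine ⟨hγ', fun h hh => ?_⟩
    have hl : h * γ' * h⁻¹ ∈ D := conj_mem hh hγ'
    have hlHp : Hp D Sp (h * γ' * h⁻¹) := hp_conj G.toGF hh hHp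
    by_cases hc : (h * γ' * h⁻¹) * γ' = γ' * (h * γ' * h⁻¹)
    · have h2 := G.norm h hh γ' hγ' h1 hc
      have h3 : h * γ' * h⁻¹ = γ' := by rw [h2]; group
      rw [h3]
      intro h4
      rw [hside γ' hγ' _ hx π S.memπ hHp (nc_par G S hγ' hγ' hHp) (hpar _ hγ' hHp)] at h4
      have h5 := G.n3 γ' hγ' π S.memπ hHp (hpar _ hγ' hHp)
      tauto
    · have hNc : Nc (h * γ' * h⁻¹) γ' := hc
      have h2 := hs h hh hNc
      have h3 := hs (γ'⁻¹ * h) (D.mul_mem (D.inv_mem hγ') hh) (by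
        have := nc_conj (g := γ'⁻¹) hNc
        convert this using 1 <;> group)
      have h4 : ¬ Sp (h * γ' * h⁻¹) (γ' * π * γ'⁻¹) γ' := by
        intro h5
        apply h3
        have := G.conj γ'⁻¹ (D.inv_mem hγ') _ _ _ h5
        convert this using 1 <;> group
      rw [hside _ hl _ S.memπ _ hγ' hlHp (hpar _ hl hlHp) hNc] at h2
      rw [hside _ hl _ hx _ hγ' hlHp (nc_par G S hγ' hl hlHp) hNc] at h4
      rw [hside _ hl _ hx _ S.memπ hlHp (nc_par G S hγ' hl hlHp) (hpar _ hl hlHp)]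
      tauto
  · rintro ⟨-, hAA⟩
    obtain ⟨g, hg, hsp⟩ := hBt 1 D.one_mem
    have e1 : (1 : H) * π * 1⁻¹ = π := by group
    rw [e1] at hsp
    have hAAg := hAA g hg
    have hlHp : Hp D Sp (g * γ * g⁻¹) := hp_conj G.toGF hg S.hp
    have hl : g * γ * g⁻¹ ∈ D := conj_mem hg S.mem
    -- `lam` does not cross or commute with conjugates of `γ'`
    have hD1 : ∀ k ∈ D, ¬ Cr Sp (k * γ * k⁻¹) γ' ∧ Nc (k * γ * k⁻¹) γ' := by
      intro k hk
      have := hDisj k⁻¹ (D.inv_mem hk)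
      refine ⟨fun h => this.1 ?_, ?_⟩
      · have := cr_conj G.toGF (D.inv_mem hk) h
        convert this using 1
        group
      · have := nc_conj (g := k) this.2
        convert this using 1
        group
    have hsimp : ∀ k ∈ D, ∀ m ∈ D, ¬ Cr Sp (k * γ * k⁻¹) (m * γ * m⁻¹) := by
      intro k hk m hm h
      refine S.simple (k⁻¹ * m) (D.mul_mem (D.inv_mem hk) hm) ?_
      have := cr_conj G.toGF (D.inv_mem hk) h
      convert this using 1 <;> group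
    have hγg : γ' * g ∈ D := D.mul_mem hγ' hg
    have e2 : (γ' * g) * γ * (γ' * g)⁻¹ = γ' * (g * γ * g⁻¹) * γ'⁻¹ := by group
    have hD2 := hD1 _ hγg
    have hs1 := hsimp g hg _ hγg
    have hs2 := hsimp _ hγg g hg
    rw [e2] at hD2 hs1 hs2
    have hD3 := hD1 g hg
    generalize hlam : g * γ * g⁻¹ = lam at *
    have hl1 : γ' * lam * γ'⁻¹ ∈ D := conj_mem hγ' hl
    have hl1Hp : Hp D Sp (γ' * lam * γ'⁻¹) := hp_conj G.toGF hγ' hlHp
    have hγl : ¬ Cr Sp γ' lam := fun h => hD3.1 (G.symm _ hγ' _ hl h)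
    have hNl : Nc lam (γ' * lam * γ'⁻¹) := by
      intro h
      have := G.norm γ' hγ' lam hl (hp_ne_one G.toGF hl hlHp) h.symm
      exact hD3.2 this.symm
    have n4a := G.n4 γ' hγ' lam hl hHp hlHp hγl (nc_symm hD3.2) hs1
    -- the inverse
    have hi : γ'⁻¹ ∈ D := D.inv_mem hγ'
    have hi1 : γ'⁻¹ ≠ 1 := inv_ne_one.2 h1
    have hcr : ∀ b ∈ D, Cr Sp γ'⁻¹ b ↔ Cr Sp γ' b := by
      intro b hb
      constructor
      · intro h
        exact G.crcom _ hi b hb γ' hγ' h (by group) h1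
      · intro h
        exact G.crcom _ hγ' b hb γ'⁻¹ hi h (by group) hi1
    have hiHp : Hp D Sp γ'⁻¹ := by
      obtain ⟨e, he, hc⟩ := hHp
      exact ⟨e, he, (hcr e he).2 hc⟩
    have e3 : γ'⁻¹ * (γ' * lam * γ'⁻¹) * γ'⁻¹⁻¹ = lam := by group
    have hNi : Nc γ'⁻¹ (γ' * lam * γ'⁻¹) := by
      intro h
      apply hD2.2
      have h' : (γ' * lam * γ'⁻¹) = γ' * (γ'⁻¹ * (γ' * lam * γ'⁻¹)) := by group
      have h6 : γ' * (γ' * lam * γ'⁻¹) * γ'⁻¹ = γ' * lam * γ'⁻¹ := by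
        rw [mul_assoc, ← h]
        group
      have h7 : γ' * (γ' * lam * γ'⁻¹) = (γ' * lam * γ'⁻¹) * γ' := mul_inv_eq_iff_eq_mul.1 h6
      exact h7.symm
    have n4b := G.n4 γ'⁻¹ hi (γ' * lam * γ'⁻¹) hl1 hiHp hl1Hp
      (fun h => hD2.1 (G.symm _ hγ' _ hl1 ((hcr _ hl1).1 h))) hNi (by rw [e3]; exact hs2)
    rw [e3] at n4b
    have n2a := G.n2 (γ' * lam * γ'⁻¹) hl1 γ' hγ' γ'⁻¹ hi hl1Hp hD2.1 hD2.2 (by group) hi1
    have hspc : Sp (γ' * lam * γ'⁻¹) (γ' * π * γ'⁻¹) γ' := by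
      have := G.conj γ' hγ' _ _ _ hsp
      convert this using 1
      group
    have hNx1 : Nc (γ' * lam * γ'⁻¹) (γ' * π * γ'⁻¹) := nc_par G S hγ' hl1 hl1Hp
    have hNx : Nc lam (γ' * π * γ'⁻¹) := nc_par G S hγ' hl hlHp
    rw [hside _ hl1 _ hl _ hi hl1Hp (nc_symm hNl) (nc_symm hNi)] at n4b
    rw [hside _ hl1 _ hx _ hγ' hl1Hp hNx1 hD2.2] at hspc
    have hsp1 : Sp (γ' * lam * γ'⁻¹) (γ' * π * γ'⁻¹) lam := by
      rw [hside _ hl1 _ hx _ hl hl1Hp hNx1 (nc_symm hNl)]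
      tauto
    have hn1 := G.n1 lam hl (γ' * lam * γ'⁻¹) hl1 (γ' * π * γ'⁻¹) hx hlHp hl1Hp hs1 hNl hNx hNx1 hsp1
    rw [hside _ hl _ hx _ hl1 hlHp hNx hNl] at hn1
    rw [hside _ hl _ hl1 _ hγ' hlHp hNl hD3.2] at n4a
    rw [hside _ hl _ S.memπ _ hγ' hlHp (hpar _ hl hlHp) hD3.2] at hsp
    rw [hside _ hl _ hx _ S.memπ hlHp hNx (hpar _ hl hlHp)] at hAAg
    tauto

end

end Pool.Agent.Helper17.LN
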