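import Pool.Agent.Helper61.LN.Goals

/-!
# PROJECT LN (MP_c65973_gt), packet SLX: a 1-1-tangle slides over and under another strand
-/

set_option autoImplicit false

namespace Pool.Agent.Helper17.LN.SLX

open Pool.Agent.Helper31.Sk Pool.Agent.Helper61.LN

/-- the strand `0` moves to the right over or under `m` strands -/
def Rw (g : Gen) : ℕ → Word
  | 0 => []
  | m + 1 => (0, g) :: shift 1 (Rw g m)

/-- the last of `m + 1` strands moves to the left -/
def Lw (g : Gen) : ℕ → Word
  | 0 => []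
  | m + 1 => shift 1 (Lw g m) ++ [(0, g)]

theorem Rw_add (g : Gen) (a b : ℕ) : Rw g (a + b) = Rw g a ++ shift a (Rw g b) := by
  induction a with
  | zero => simp [Rw, sh_zero]
  | succ a ih =>
    have e : a + 1 + b = (a + b) + 1 := by ring
    rw [e, Rw, ih, Rw, sh_append, sh_sh]
    rfl

theorem Lw_add (g : Gen) (a b : ℕ) : Lw g (a + b) = shift a (Lw g b) ++ Lw g a := by
  induction a with
  | zero => simp [Lw, sh_zero]
  | succ a ih =>
    have e : a + 1 + b = (a + b) + 1 := by ring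
    rw [e, Lw, ih, Lw, sh_append, sh_sh, List.append_assoc]

theorem leg_cast {m n m' n' : ℕ} {w : Word} (h : Legal m w n) (h1 : m = m') (h2 : n = n') :
    Legal m' w n' := by
  subst h1 h2
  exact h

theorem iso_cast {m n m' n' : ℕ} {w w' : Word} (h : Iso m n w w') (h1 : m = m') (h2 : n = n') :
    Iso m' n' w w' := by
  subst h1 h2
  exact h

theorem leg_one (i a : ℕ) (h : Gen) (r : ℕ) (ha : a = i + h.src + r) :
    Legal a [(i, h)] (i + h.tgt + r) := by
  refine ⟨by omega, ?_⟩
  change a - h.src + h.tgt = i + h.tgt + r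
  omega

theorem leg_R (g : Gen) (hg : g = .pos ∨ g = .neg) (m : ℕ) : Legal (m + 1) (Rw g m) (m + 1) := by
  have hs : g.src = 2 := by rcases hg with rfl | rfl <;> rfl
  have ht : g.tgt = 2 := by rcases hg with rfl | rfl <;> rfl
  induction m with
  | zero => rfl
  | succ m ih =>
    refine ⟨by omega, ?_⟩
    exact leg_cast (leg_left 1 _ _ _ ih) (by omega) rfl

theorem leg_L (g : Gen) (hg : g = .pos ∨ g = .neg) (m : ℕ) : Legal (m + 1) (Lw g m) (m + 1) := by
  have hs : g.src = 2 := by rcases hg with rfl | rfl <;> rfl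
  have ht : g.tgt = 2 := by rcases hg with rfl | rfl <;> rfl
  induction m with
  | zero => rfl
  | succ m ih =>
    refine legal_append.2 ⟨m + 1 + 1, leg_left 1 _ _ _ ih, ?_⟩
    exact leg_cast (leg_one 0 (m + 1 + 1) g m (by omega)) rfl (by omega)

/-- a piece commutes with a tangle to the right of it -/
theorem comm0 (h : Gen) (t : Word) : ∀ a b : ℕ, Legal a t b →
    Iso (h.src + a) (h.tgt + b) (shift h.src t ++ [(0, h)]) ((0, h) :: shift h.tgt t) := by
  induction t with
  | nil =>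
    intro a b hl
    exact iso_refl _ _ _
  | cons s t ih =>
    intro a b hl
    obtain ⟨j, k⟩ := s
    obtain ⟨h1, h2⟩ := hl
    obtain ⟨r, hr⟩ := Nat.exists_eq_add_of_le h1
    rw [sh_cons, sh_cons]
    have l1 : Legal (h.src + a) [(j + h.src, k)] (h.src + (a - k.src + k.tgt)) :=
      leg_cast (leg_one (j + h.src) (h.src + a) k r (by omega)) rfl (by omega)
    have s1 := iso_left (ih _ _ h2) l1
    refine iso_trans s1 ?_
    have e1 : Elem [(0, h), (0 + h.tgt + j, k)] [(0 + h.src + j, k), (0, h)] := Elem.comm 0 j h k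
    have x1 : 0 + h.tgt + j = j + h.tgt := by ring
    have x2 : 0 + h.src + j = j + h.src := by ring
    rw [x1, x2] at e1
    have l2 : Legal (h.src + (a - k.src + k.tgt)) [(0, h)] (h.tgt + (a - k.src + k.tgt)) :=
      leg_cast (leg_one 0 _ h (a - k.src + k.tgt) (by omega)) rfl (by omega)
    have l3 : Legal (h.src + a) [(0, h)] (h.tgt + a) :=
      leg_cast (leg_one 0 _ h a (by omega)) rfl (by omega)
    have l4 : Legal (h.tgt + a) [(j + h.tgt, k)] (h.tgt + (a - k.src + k.tgt)) :=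
      leg_cast (leg_one (j + h.tgt) (h.tgt + a) k r (by omega)) rfl (by omega)
    have s2 : Iso (h.src + a) (h.tgt + (a - k.src + k.tgt)) [(j + h.src, k), (0, h)]
        [(0, h), (j + h.tgt, k)] :=
      iso_symm (iso_elem e1 (legal_append.2 ⟨_, l3, l4⟩) (legal_append.2 ⟨_, l1, l2⟩))
    have l5 : Legal (h.tgt + (a - k.src + k.tgt)) (shift h.tgt t) (h.tgt + b) :=
      leg_cast (leg_left h.tgt t _ _ h2) (by omega) (by omega)
    exact iso_right s2 l5

/-! ### the local facts -/

theorem locA (g h : Gen) (hg : g = .pos ∨ g = .neg) :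
    Iso (h.src + 1) (h.tgt + 1) ((1, h) :: Rw g h.tgt) (Rw g h.src ++ [(0, h)]) := by
  rcases hg with rfl | rfl
  · cases h
    · -- cup
      change Iso 1 3 [(1, .cup), (0, .pos), (1, .pos)] [(0, .cup)]
      refine iso_trans (w' := [(0, .cup), (1, .neg), (1, .pos)]) ?_ ?_
      · exact stq 0 (Or.inr (Elem.cupN 0)) rfl rfl rfl
      · exact stq 1 (Or.inl (Elem.r2N 1)) rfl rfl rfl
    · -- cap
      change Iso 3 1 [(1, .cap)] [(0, .pos), (1, .pos), (0, .cap)]
      refine iso_symm (iso_trans (w' := [(0, .pos), (0, .neg), (1, .cap)]) ?_ ?_)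
      · exact stq 1 (Or.inl (Elem.capP 0)) rfl rfl rfl
      · exact stq 0 (Or.inl (Elem.r2P 0)) rfl rfl rfl
    · -- pos
      change Iso 3 3 [(1, .pos), (0, .pos), (1, .pos)] [(0, .pos), (1, .pos), (0, .pos)]
      exact stq 0 (Or.inr (Elem.r3P 0)) rfl rfl rfl
    · -- neg
      change Iso 3 3 [(1, .neg), (0, .pos), (1, .pos)] [(0, .pos), (1, .pos), (0, .neg)]
      refine iso_trans (w' := [(1, .neg), (0, .pos), (1, .pos), (0, .pos), (0, .neg)]) ?_
        (iso_trans (w' := [(1, .neg), (1, .pos), (0, .pos), (1, .pos), (0, .neg)]) ?_ ?_)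
      · exact stq 3 (Or.inr (Elem.r2P 0)) rfl rfl rfl
      · exact stq 1 (Or.inl (Elem.r3P 0)) rfl rfl rfl
      · exact stq 0 (Or.inl (Elem.r2N 1)) rfl rfl rfl
  · cases h
    · -- cup
      change Iso 1 3 [(1, .cup), (0, .neg), (1, .neg)] [(0, .cup)]
      refine iso_trans (w' := [(0, .cup), (1, .pos), (1, .neg)]) ?_ ?_
      · exact stq 0 (Or.inr (Elem.cupP 0)) rfl rfl rfl
      · exact stq 1 (Or.inl (Elem.r2P 1)) rfl rfl rfl
    · -- cap
      change Iso 3 1 [(1, .cap)] [(0, .neg), (1, .neg), (0, .cap)]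
      refine iso_symm (iso_trans (w' := [(0, .neg), (0, .pos), (1, .cap)]) ?_ ?_)
      · exact stq 1 (Or.inl (Elem.capN 0)) rfl rfl rfl
      · exact stq 0 (Or.inl (Elem.r2N 0)) rfl rfl rfl
    · -- pos
      change Iso 3 3 [(1, .pos), (0, .neg), (1, .neg)] [(0, .neg), (1, .neg), (0, .pos)]
      refine iso_trans (w' := [(1, .pos), (0, .neg), (1, .neg), (0, .neg), (0, .pos)]) ?_
        (iso_trans (w' := [(1, .pos), (1, .neg), (0, .neg), (1, .neg), (0, .pos)]) ?_ ?_)
      · exact stq 3 (Or.inr (Elem.r2N 0)) rfl rfl rfl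
      · exact stq 1 (Or.inl (Elem.r3N 0)) rfl rfl rfl
      · exact stq 0 (Or.inl (Elem.r2P 1)) rfl rfl rfl
    · -- neg
      change Iso 3 3 [(1, .neg), (0, .neg), (1, .neg)] [(0, .neg), (1, .neg), (0, .neg)]
      exact stq 0 (Or.inr (Elem.r3N 0)) rfl rfl rfl

theorem locB (g h : Gen) (hg : g = .pos ∨ g = .neg) :
    Iso (h.src + 1) (h.tgt + 1) ((0, h) :: Lw g h.tgt) (Lw g h.src ++ [(1, h)]) := by
  rcases hg with rfl | rfl
  · cases h
    · -- cup
      change Iso 1 3 [(0, .cup), (1, .pos), (0, .pos)] [(1, .cup)]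
      refine iso_trans (w' := [(1, .cup), (0, .neg), (0, .pos)]) ?_ ?_
      · exact stq 0 (Or.inl (Elem.cupP 0)) rfl rfl rfl
      · exact stq 1 (Or.inl (Elem.r2N 0)) rfl rfl rfl
    · -- cap
      change Iso 3 1 [(0, .cap)] [(1, .pos), (0, .pos), (1, .cap)]
      refine iso_symm (iso_trans (w' := [(1, .pos), (1, .neg), (0, .cap)]) ?_ ?_)
      · exact stq 1 (Or.inr (Elem.capN 0)) rfl rfl rfl
      · exact stq 0 (Or.inl (Elem.r2P 1)) rfl rfl rfl
    · -- pos
      change Iso 3 3 [(0, .pos), (1, .pos), (0, .pos)] [(1, .pos), (0, .pos), (1, .pos)]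
      exact stq 0 (Or.inl (Elem.r3P 0)) rfl rfl rfl
    · -- neg
      change Iso 3 3 [(0, .neg), (1, .pos), (0, .pos)] [(1, .pos), (0, .pos), (1, .neg)]
      refine iso_trans (w' := [(0, .neg), (1, .pos), (0, .pos), (1, .pos), (1, .neg)]) ?_
        (iso_trans (w' := [(0, .neg), (0, .pos), (1, .pos), (0, .pos), (1, .neg)]) ?_ ?_)
      · exact stq 3 (Or.inr (Elem.r2P 1)) rfl rfl rfl
      · exact stq 1 (Or.inr (Elem.r3P 0)) rfl rfl rfl
      · exact stq 0 (Or.inl (Elem.r2N 0)) rfl rfl rfl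
  · cases h
    · -- cup
      change Iso 1 3 [(0, .cup), (1, .neg), (0, .neg)] [(1, .cup)]
      refine iso_trans (w' := [(1, .cup), (0, .pos), (0, .neg)]) ?_ ?_
      · exact stq 0 (Or.inl (Elem.cupN 0)) rfl rfl rfl
      · exact stq 1 (Or.inl (Elem.r2P 0)) rfl rfl rfl
    · -- cap
      change Iso 3 1 [(0, .cap)] [(1, .neg), (0, .neg), (1, .cap)]
      refine iso_symm (iso_trans (w' := [(1, .neg), (1, .pos), (0, .cap)]) ?_ ?_)
      · exact stq 1 (Or.inr (Elem.capP 0)) rfl rfl rfl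
      · exact stq 0 (Or.inl (Elem.r2N 1)) rfl rfl rfl
    · -- pos
      change Iso 3 3 [(0, .pos), (1, .neg), (0, .neg)] [(1, .neg), (0, .neg), (1, .pos)]
      refine iso_trans (w' := [(0, .pos), (1, .neg), (0, .neg), (1, .neg), (1, .pos)]) ?_
        (iso_trans (w' := [(0, .pos), (0, .neg), (1, .neg), (0, .neg), (1, .pos)]) ?_ ?_)
      · exact stq 3 (Or.inr (Elem.r2N 1)) rfl rfl rfl
      · exact stq 1 (Or.inr (Elem.r3N 0)) rfl rfl rfl
      · exact stq 0 (Or.inl (Elem.r2P 0)) rfl rfl rfl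
    · -- neg
      change Iso 3 3 [(0, .neg), (1, .neg), (0, .neg)] [(1, .neg), (0, .neg), (1, .neg)]
      exact stq 0 (Or.inl (Elem.r3N 0)) rfl rfl rfl

/-! ### one piece -/

theorem comm2 (g h : Gen) (hg : g = .pos ∨ g = .neg) (i r : ℕ) :
    Iso (i + 2 + h.src + r) (i + 2 + h.tgt + r) [(0, g), (i + 2, h)] [(i + 2, h), (0, g)] := by
  have hs : g.src = 2 := by rcases hg with rfl | rfl <;> rfl
  have ht : g.tgt = 2 := by rcases hg with rfl | rfl <;> rfl
  have e := Elem.comm 0 i g h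
  have x1 : 0 + g.tgt + i = i + 2 := by omega
  have x2 : 0 + g.src + i = i + 2 := by omega
  rw [x1, x2] at e
  refine iso_elem e ?_ ?_
  · refine legal_append (u := [(0, g)]) (v := [(i + 2, h)]) |>.2
      ⟨i + 2 + h.src + r, leg_cast (leg_one 0 _ g (i + h.src + r) (by omega)) rfl (by omega), ?_⟩
    exact leg_one (i + 2) _ h r rfl
  · refine legal_append (u := [(i + 2, h)]) (v := [(0, g)]) |>.2
      ⟨i + 2 + h.tgt + r, leg_one (i + 2) _ h r rfl, ?_⟩
    exact leg_cast (leg_one 0 _ g (i + h.tgt + r) (by omega)) rfl (by omega)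

theorem oneA (g h : Gen) (hg : g = .pos ∨ g = .neg) (r : ℕ) : ∀ i : ℕ,
    Iso (i + h.src + r + 1) (i + h.tgt + r + 1) ((i + 1, h) :: Rw g (i + h.tgt + r))
      (Rw g (i + h.src + r) ++ [(i, h)]) := by
  have hs : g.src = 2 := by rcases hg with rfl | rfl <;> rfl
  have ht : g.tgt = 2 := by rcases hg with rfl | rfl <;> rfl
  intro i
  induction i with
  | zero =>
    rw [Nat.zero_add, Nat.zero_add, Nat.zero_add, Rw_add, Rw_add]
    have s1 : Iso (h.src + 1 + r) (h.tgt + 1 + r) ((1, h) :: Rw g h.tgt)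
        (Rw g h.src ++ [(0, h)]) := by
      have := iso_sh 0 r (locA g h hg)
      rw [sh_zero, sh_zero] at this
      exact this
    have l1 : Legal (h.tgt + 1 + r) (shift h.tgt (Rw g r)) (h.tgt + r + 1) :=
      leg_cast (leg_left h.tgt _ _ _ (leg_R g hg r)) (by omega) (by omega)
    have s2 := iso_right s1 l1
    have l2 : Legal (h.src + r + 1) (Rw g h.src) (h.src + (r + 1)) :=
      leg_cast (leg_right _ _ _ r (leg_R g hg h.src)) (by omega) (by omega)
    have s3 := iso_left (iso_symm (comm0 h (Rw g r) _ _ (leg_R g hg r))) l2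
    refine iso_trans (iso_cast s2 (by omega) rfl) ?_
    have e1 : Rw g h.src ++ [(0, h)] ++ shift h.tgt (Rw g r) =
        Rw g h.src ++ (0, h) :: shift h.tgt (Rw g r) := by simp
    have e2 : Rw g h.src ++ shift h.src (Rw g r) ++ [(0, h)] =
        Rw g h.src ++ (shift h.src (Rw g r) ++ [(0, h)]) := by simp
    rw [e1, e2]
    exact iso_cast s3 rfl (by omega)
  | succ i ih =>
    have x1 : i + 1 + h.tgt + r = (i + h.tgt + r) + 1 := by ring
    have x2 : i + 1 + h.src + r = (i + h.src + r) + 1 := by ring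
    rw [x1, x2, Rw, Rw]
    have c1 := iso_symm (comm2 g h hg i r)
    have l1 : Legal (i + 2 + h.tgt + r) (shift 1 (Rw g (i + h.tgt + r))) (i + h.tgt + r + 1 + 1) :=
      leg_cast (leg_left 1 _ _ _ (leg_R g hg (i + h.tgt + r))) (by omega) rfl
    have s1 := iso_right c1 l1
    refine iso_trans (iso_cast s1 (by omega) rfl) ?_
    have s2 := iso_sh 1 0 ih
    rw [sh_cons, sh_append, sh_cons, sh_nil] at s2
    have l2 : Legal (i + h.src + r + 1 + 1) [(0, g)] (i + h.src + r + 1 + 1) :=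
      leg_cast (leg_one 0 _ g (i + h.src + r) (by omega)) rfl (by omega)
    exact iso_left (iso_cast s2 (by omega) (by omega)) l2

theorem oneB (g h : Gen) (hg : g = .pos ∨ g = .neg) (r : ℕ) : ∀ i : ℕ,
    Iso (i + h.src + r + 1) (i + h.tgt + r + 1) ((i, h) :: Lw g (i + h.tgt + r))
      (Lw g (i + h.src + r) ++ [(i + 1, h)]) := by
  have hs : g.src = 2 := by rcases hg with rfl | rfl <;> rfl
  have ht : g.tgt = 2 := by rcases hg with rfl | rfl <;> rfl
  intro i
  induction i with
  | zero =>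
    rw [Nat.zero_add, Nat.zero_add, Nat.zero_add, Lw_add, Lw_add]
    have s1 := iso_symm (comm0 h (Lw g r) _ _ (leg_L g hg r))
    have l1 : Legal (h.tgt + (r + 1)) (Lw g h.tgt) (h.tgt + r + 1) :=
      leg_cast (leg_right _ _ _ r (leg_L g hg h.tgt)) (by omega) (by omega)
    have s2 := iso_right s1 l1
    refine iso_trans (iso_cast s2 (by omega) rfl) ?_
    have s3 : Iso (h.src + 1 + r) (h.tgt + 1 + r) ((0, h) :: Lw g h.tgt)
        (Lw g h.src ++ [(1, h)]) := by
      have := iso_sh 0 r (locB g h hg)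
      rw [sh_zero, sh_zero] at this
      exact this
    have l2 : Legal (h.src + r + 1) (shift h.src (Lw g r)) (h.src + 1 + r) :=
      leg_cast (leg_left h.src _ _ _ (leg_L g hg r)) (by omega) (by omega)
    have s4 := iso_left s3 l2
    have e1 : shift h.src (Lw g r) ++ [(0, h)] ++ Lw g h.tgt =
        shift h.src (Lw g r) ++ (0, h) :: Lw g h.tgt := by simp
    have e2 : shift h.src (Lw g r) ++ Lw g h.src ++ [(1, h)] =
        shift h.src (Lw g r) ++ (Lw g h.src ++ [(1, h)]) := by simp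
    rw [e1, e2]
    exact iso_cast s4 rfl (by omega)
  | succ i ih =>
    have x1 : i + 1 + h.tgt + r = (i + h.tgt + r) + 1 := by ring
    have x2 : i + 1 + h.src + r = (i + h.src + r) + 1 := by ring
    rw [x1, x2, Lw, Lw]
    have s1 := iso_sh 1 0 ih
    rw [sh_cons, sh_append, sh_cons, sh_nil] at s1
    have l1 : Legal (i + h.tgt + r + 1 + 1) [(0, g)] (i + h.tgt + r + 1 + 1) :=
      leg_cast (leg_one 0 _ g (i + h.tgt + r) (by omega)) rfl (by omega)
    have s2 := iso_right (iso_cast s1 (m' := i + h.src + r + 1 + 1)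
      (n' := i + h.tgt + r + 1 + 1) (by omega) (by omega)) l1
    refine iso_trans s2 ?_
    have l2 : Legal (i + h.src + r + 1 + 1) (shift 1 (Lw g (i + h.src + r)))
        (i + 2 + h.src + r) :=
      leg_cast (leg_left 1 _ _ _ (leg_L g hg (i + h.src + r))) rfl (by omega)
    have s3 := iso_left (iso_symm (comm2 g h hg i r)) l2
    have e1 : shift 1 (Lw g (i + h.src + r)) ++ [(i + 1 + 1, h)] ++ [(0, g)] =
        shift 1 (Lw g (i + h.src + r)) ++ [(i + 2, h), (0, g)] := by simp
    have e2 : shift 1 (Lw g (i + h.src + r)) ++ [(0, g)] ++ [(i + 1 + 1, h)] =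
        shift 1 (Lw g (i + h.src + r)) ++ [(0, g), (i + 2, h)] := by simp
    rw [e1, e2]
    exact iso_cast s3 rfl (by omega)

/-! ### tangles -/

theorem mainA (g : Gen) (hg : g = .pos ∨ g = .neg) (t : Word) : ∀ m n : ℕ, Legal m t n →
    Iso (m + 1) (n + 1) (shift 1 t ++ Rw g n) (Rw g m ++ t) := by
  induction t with
  | nil =>
    intro m n h
    simp only [Legal] at h
    subst h
    rw [sh_nil, List.nil_append, List.append_nil]
    exact iso_refl _ _ _
  | cons s t ih =>
    intro m n hl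
    obtain ⟨i, h⟩ := s
    obtain ⟨h1, h2⟩ := hl
    obtain ⟨r, hr⟩ := Nat.exists_eq_add_of_le h1
    have x1 : m - h.src + h.tgt = i + h.tgt + r := by omega
    rw [x1] at h2
    subst hr
    have s1 := ih _ _ h2
    have l1 : Legal (i + h.src + r + 1) [(i + 1, h)] (i + h.tgt + r + 1) :=
      leg_cast (leg_one (i + 1) _ h r (by omega)) rfl (by omega)
    have s2 := iso_left s1 l1
    have s3 := iso_right (oneA g h hg r i) (leg_right _ _ _ 1 h2)
    rw [sh_cons]
    refine iso_trans s2 ?_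
    have e : Rw g (i + h.src + r) ++ (i, h) :: t = Rw g (i + h.src + r) ++ [(i, h)] ++ t := by simp
    rw [e]
    exact s3

theorem mainB (g : Gen) (hg : g = .pos ∨ g = .neg) (t : Word) : ∀ m n : ℕ, Legal m t n →
    Iso (m + 1) (n + 1) (t ++ Lw g n) (Lw g m ++ shift 1 t) := by
  induction t with
  | nil =>
    intro m n h
    simp only [Legal] at h
    subst h
    rw [sh_nil, List.nil_append, List.append_nil]
    exact iso_refl _ _ _
  | cons s t ih =>
    intro m n hl
    obtain ⟨i, h⟩ := s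
    obtain ⟨h1, h2⟩ := hl
    obtain ⟨r, hr⟩ := Nat.exists_eq_add_of_le h1
    have x1 : m - h.src + h.tgt = i + h.tgt + r := by omega
    rw [x1] at h2
    subst hr
    have s1 := ih _ _ h2
    have l1 : Legal (i + h.src + r + 1) [(i, h)] (i + h.tgt + r + 1) :=
      leg_cast (leg_one i _ h (r + 1) (by omega)) rfl (by omega)
    have s2 := iso_left s1 l1
    have s3 := iso_right (oneB g h hg r i) (leg_left 1 _ _ _ h2)
    rw [sh_cons]
    refine iso_trans s2 ?_
    have e : Lw g (i + h.src + r) ++ (i + 1, h) :: shift 1 t =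
        Lw g (i + h.src + r) ++ [(i + 1, h)] ++ shift 1 t := by simp
    rw [e]
    exact s3

theorem t : S_SLX := by
  intro T hT g hg
  exact ⟨mainB g hg T 1 1 hT, mainA g hg T 1 1 hT⟩

end Pool.Agent.Helper17.LN.SLX
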